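import Pool.Agent.R54.AS.Grow
import Pool.Agent.R54.AS.Flip
import Pool.Agent.N348.EX.Up

/-!
# Self-avoiding walks with few free corners are exponentially rare
-/

set_option autoImplicit false

namespace Pool.Agent.N949.CM

open Finset Pool.Agent.H976R2 Pool.Agent.H976R2.Lip Pool.Agent.H924P Pool.Agent.H739K
open Pool.Agent.R54.AS
open scoped Classical

theorem few_saw : ∃ C c : ℝ, 0 < C ∧ 0 < c ∧ ∀ n : ℕ,
    (((SW n).filter (fun w => ((fc w).card : ℝ) < n / 50)).card : ℝ) ≤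
      C * Real.exp (-(c * n)) * ((SW n).card : ℝ) := by
  obtain ⟨C, hC, h1⟩ := fewc_card
  have hr0 : (0 : ℝ) < 2.4 / 2.43 := by norm_num
  have hr1 : (2.4 / 2.43 : ℝ) < 1 := by norm_num
  refine ⟨C, - Real.log (2.4 / 2.43), hC, ?_, fun n => ?_⟩
  · have := Real.log_neg hr0 hr1; linarith
  have h8 : Real.exp (-(- Real.log (2.4 / 2.43) * n)) = (2.4 / 2.43 : ℝ) ^ n := by
    rw [neg_mul, neg_neg, mul_comm, ← Real.log_pow, Real.exp_log (by positivity)]
  rw [h8]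
  have h9 : (2.43 : ℝ) ^ n ≤ ((SW n).card : ℝ) := by
    rw [Pool.Agent.H739K.SWR.card_eq_cr']
    exact (pow_le_pow_left₀ (by norm_num) Pool.Agent.H739K.BNDx.mu_ge n).trans
      (H981.mu_pow_le n)
  have h10 : (((SW n).filter (fun w => ((fc w).card : ℝ) < n / 50)).card : ℝ) ≤ C * 2.4 ^ n :=
    h1 n
  calc (((SW n).filter (fun w => ((fc w).card : ℝ) < n / 50)).card : ℝ) ≤ C * 2.4 ^ n := h10
    _ = C * (2.4 / 2.43) ^ n * 2.43 ^ n := by rw [div_pow]; field_simp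
    _ ≤ C * (2.4 / 2.43) ^ n * ((SW n).card : ℝ) := by gcongr

/-- the flips preserve the set of self-avoiding words -/
theorem SW_cl (n : ℕ) : ∀ w ∈ SW n, ∀ i ∈ fc w, sw w i ∈ SW n := by
  intro w hw i hi
  rw [mem_SW] at hw ⊢
  obtain ⟨h1, h2, -⟩ := Pool.Agent.R54.AS.flip w hw.2 i hi
  exact ⟨h1.trans hw.1, h2⟩

end Pool.Agent.N949.CM
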