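import Pool.Agent.N949.CM.Mix
import Pool.Agent.N787.CM.MIXS
import Pool.Agent.N402.CM.MIXB
import Pool.Agent.N949.CM.Gen
import Pool.Agent.N949.CM.Few
import Pool.Agent.H976R2.Paths

/-!
# The characteristic function of the joint law
-/

set_option autoImplicit false

namespace Pool.Agent.N949.CM

open Finset Pool.Agent.H976R2 Pool.Agent.H976R2.Lip Pool.Agent.H924P Pool.Agent.H739K
open Pool.Agent.R54.AS
open Pool.Agent.N949.AL (P2 lab Av corner)
open scoped Classical

/-- scalar product -/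
def dot (θ : ℝ × ℝ × ℝ) (x : ℤ × ℤ × ℤ) : ℝ := θ.1 * x.1 + θ.2.1 * x.2.1 + θ.2.2 * x.2.2

theorem dot_add (θ : ℝ × ℝ × ℝ) (x y : ℤ × ℤ × ℤ) : dot θ (x + y) = dot θ x + dot θ y := by
  unfold dot
  simp only [Prod.fst_add, Prod.snd_add]
  push_cast
  ring

theorem dot_sum (θ : ℝ × ℝ × ℝ) (j : Fin 4 → ℕ) :
    dot θ (∑ t, j t • vv t) = ∑ t, (j t : ℝ) * dot θ (vv t) := by
  have h0 : dot θ 0 = 0 := by simp [dot]
  have h1 : ∀ (m : ℕ) (x : ℤ × ℤ × ℤ), dot θ (m • x) = m * dot θ x := by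
    intro m x
    unfold dot
    simp only [Prod.smul_fst, Prod.smul_snd]
    simp only [nsmul_eq_mul]
    push_cast
    ring
  have h2 : ∀ s : Finset (Fin 4), dot θ (∑ t ∈ s, j t • vv t) =
      ∑ t ∈ s, (j t : ℝ) * dot θ (vv t) := by
    intro s
    induction s using Finset.induction_on with
    | empty => simpa using h0
    | insert a s ha ih => rw [sum_insert ha, sum_insert ha, dot_add, ih, h1]
  exact h2 univ

theorem norm_half (δ : ℝ) : ‖(1 + Complex.exp (δ * Complex.I)) / 2‖ ≤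
    Real.exp (-(Real.sin (δ / 2) ^ 2 / 2)) := by
  have h1 : ‖(1 + Complex.exp (δ * Complex.I)) / 2‖ ^ 2 = 1 - Real.sin (δ / 2) ^ 2 := by
    rw [← Complex.normSq_eq_norm_sq, Complex.normSq_apply]
    have e1 : ((1 + Complex.exp (δ * Complex.I)) / 2).re = (1 + Real.cos δ) / 2 := by
      rw [Complex.div_ofNat_re, Complex.add_re, Complex.exp_ofReal_mul_I_re]
      simp
    have e2 : ((1 + Complex.exp (δ * Complex.I)) / 2).im = Real.sin δ / 2 := by
      rw [Complex.div_ofNat_im, Complex.add_im, Complex.exp_ofReal_mul_I_im]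
      simp
    rw [e1, e2]
    have h2 := Real.sin_sq_add_cos_sq δ
    have h3 : Real.cos δ = 1 - 2 * Real.sin (δ / 2) ^ 2 := by
      have h4 := Real.cos_sq_add_sin_sq (δ / 2)
      have h5 := Real.cos_two_mul (δ / 2)
      rw [show 2 * (δ / 2) = δ by ring] at h5
      linarith
    nlinarith
  have h2 : 1 - Real.sin (δ / 2) ^ 2 ≤ Real.exp (-(Real.sin (δ / 2) ^ 2 / 2)) ^ 2 := by
    rw [← Real.exp_nat_mul]
    have h3 := Real.add_one_le_exp (-(Real.sin (δ / 2) ^ 2))
    have e1 : ((2 : ℕ) : ℝ) * -(Real.sin (δ / 2) ^ 2 / 2) = -(Real.sin (δ / 2) ^ 2) := by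
      push_cast
      ring
    rw [e1]
    linarith
  exact le_of_sq_le_sq (by rw [h1]; exact h2) (Real.exp_pos _).le

/-- Fourier bound for sums of independent binomial random variables -/
theorem bin_cos (θ : ℝ × ℝ × ℝ) (φ m : ℝ)
    (hm : ∀ t, m ≤ Real.sin (dot θ (vv t) / 2) ^ 2) (N : Fin 4 → ℕ) :
    |bin N (fun x => Real.cos (φ + dot θ x))| ≤ Real.exp (-(m * ((∑ t, N t : ℕ) : ℝ) / 2)) := by
  obtain ⟨Z, hZ⟩ : ∃ Z : Fin 4 → ℂ, ∀ t, Z t = Complex.exp ((dot θ (vv t) : ℝ) * Complex.I) :=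
    ⟨_, fun _ => rfl⟩
  have h1 : ((bin N (fun x => Real.cos (φ + dot θ x)) : ℝ)) =
      (Complex.exp (φ * Complex.I) * ∏ t, ((1 + Z t) / 2) ^ N t).re := by
    have e1 : ∏ t, ((1 + Z t) / 2) ^ N t =
        ∑ j ∈ Fintype.piFinset (fun t => range (N t + 1)),
          ∏ t, ((((N t).choose (j t) : ℝ) / 2 ^ N t : ℝ) : ℂ) * Z t ^ j t := by
      rw [← Finset.prod_univ_sum (fun t => range (N t + 1))
        (fun t k => ((((N t).choose k : ℝ) / 2 ^ N t : ℝ) : ℂ) * Z t ^ k)]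
      refine prod_congr rfl fun t _ => ?_
      rw [div_pow, add_comm (1 : ℂ), add_pow, sum_div]
      refine sum_congr rfl fun k _ => ?_
      push_cast
      rw [one_pow]
      ring
    rw [e1, mul_sum, Complex.re_sum]
    unfold bin
    refine sum_congr rfl fun j _ => ?_
    rw [prod_mul_distrib]
    have e2 : ∏ t, Z t ^ j t = Complex.exp ((∑ t, (j t : ℝ) * dot θ (vv t) : ℝ) * Complex.I) := by
      push_cast
      rw [sum_mul, Complex.exp_sum]
      refine prod_congr rfl fun t _ => ?_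
      rw [hZ, ← Complex.exp_nat_mul]
      congr 1
      ring
    dsimp only
    rw [e2, dot_sum]
    have e3 : Complex.exp (φ * Complex.I) * ((∏ t, ((((N t).choose (j t) : ℝ) / 2 ^ N t : ℝ) : ℂ)) *
        Complex.exp ((∑ t, (j t : ℝ) * dot θ (vv t) : ℝ) * Complex.I)) =
        ((∏ t, (((N t).choose (j t) : ℝ) / 2 ^ N t) : ℝ) : ℂ) *
          Complex.exp ((φ + ∑ t, (j t : ℝ) * dot θ (vv t) : ℝ) * Complex.I) := by
      have e4 : Complex.exp ((φ + ∑ t, (j t : ℝ) * dot θ (vv t) : ℝ) * Complex.I) =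
          Complex.exp (φ * Complex.I) *
            Complex.exp ((∑ t, (j t : ℝ) * dot θ (vv t) : ℝ) * Complex.I) := by
        rw [← Complex.exp_add]
        congr 1
        push_cast
        ring
      rw [e4, Complex.ofReal_prod]
      ring
    rw [e3, Complex.re_ofReal_mul, Complex.exp_ofReal_mul_I_re]
  rw [h1]
  refine (Complex.abs_re_le_norm _).trans ?_
  rw [norm_mul, Complex.norm_exp_ofReal_mul_I, one_mul, norm_prod]
  have h2 : ∏ t, ‖((1 + Z t) / 2) ^ N t‖ ≤ ∏ t, Real.exp (-(m * (N t : ℝ) / 2)) := by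
    refine prod_le_prod (fun t _ => norm_nonneg _) fun t _ => ?_
    rw [norm_pow, hZ]
    refine (pow_le_pow_left₀ (norm_nonneg _) (norm_half _) _).trans ?_
    rw [← Real.exp_nat_mul]
    refine Real.exp_le_exp.2 ?_
    have h3 := mul_le_mul_of_nonneg_right (hm t) (Nat.cast_nonneg (α := ℝ) (N t))
    linarith
  refine h2.trans (le_of_eq ?_)
  rw [← Real.exp_sum]
  congr 1
  push_cast
  rw [sum_neg_distrib, mul_sum, sum_div]

end Pool.Agent.N949.CM
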