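import Pool.Agent.N949.CM.BinF

/-!
# The statement for words
-/

set_option autoImplicit false

namespace Pool.Agent.N949.CM

open Finset Pool.Agent.H976R2 Pool.Agent.H976R2.Lip Pool.Agent.H924P Pool.Agent.H739K
open Pool.Agent.R54.AS
open Pool.Agent.N949.AL (P2 lab Av corner)
open scoped Classical

theorem exp_mono {n : ℕ} {a b : ℝ} (ha : 0 < a) (hab : a ≤ b) :
    Real.exp (-(n / a)) ≤ Real.exp (-(n / b)) := by
  refine Real.exp_le_exp.2 (neg_le_neg ?_)
  exact div_le_div_of_nonneg_left (Nat.cast_nonneg _) ha hab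

/-- everything for a set of self-avoiding words closed under flips -/
theorem fin_words (C1 c1 : ℝ) (hC1 : 0 < C1) (hc1 : 0 < c1) :
    ∃ C : ℝ, 1 ≤ C ∧ ∃ A : ℕ → ℝ, ∀ (n : ℕ) (Ω : Finset (List Dir)), 1 ≤ n →
    (∀ w ∈ Ω, Saw w) → (∀ w ∈ Ω, w.length = n) → (∀ w ∈ Ω, ∀ i ∈ fc w, sw w i ∈ Ω) →
    0 < Ω.card →
    ((Ω.filter (fun w => ((fc w).card : ℝ) < n / 50)).card : ℝ) ≤
      C1 * Real.exp (-(c1 * n)) * (Ω.card : ℝ) →
    ∀ V : Finset P2, C * V.card ≤ n →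
    ∃ (u : List Dir → ℤ × ℤ × ℤ) (N : List Dir → Fin 4 → ℕ),
      ((Ω.filter (fun w => C * ((∑ t, N w t : ℕ) : ℝ) < n)).card : ℝ) ≤
        C * Real.exp (-(n / C)) * (Ω.card : ℝ) ∧
      ∀ F : List Dir → ℝ, (∀ w ∈ Ω, ∀ i ∈ fc w, Av V (lab w i) → F (sw w i) = F w) →
      (∀ h : ℤ × ℤ × ℤ → (Fin 4 → ℕ) → ℤ × ℤ × ℤ → ℝ,
        ∑ w ∈ Ω, F w * h (u w) (N w) (vec w) =
          ∑ w ∈ Ω, F w * bin (N w) (fun x => h (u w) (N w) (u w + x))) ∧
      ((∀ w ∈ Ω, |F w| ≤ 1) →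
        (∀ (θ : ℝ × ℝ × ℝ) (φ m : ℝ), 0 ≤ m → (∀ t, m ≤ Real.sin (dot θ (vv t) / 2) ^ 2) →
          |MM Ω (fun w => F w * Real.cos (dot θ (vec w) + φ))| ≤
            C * (MM Ω (fun w => |F w|) * Real.exp (-(m * n / C)) + Real.exp (-(n / C)))) ∧
        (∀ (s : Fin 3) (k : ℕ) (h : ℤ → ℝ), (∀ a, |h a| ≤ 1) →
          |MM Ω (fun w => F w * ∑ i ∈ range (k + 1), (-1 : ℝ) ^ i * (k.choose i : ℝ) *
            h (fun3 s w + i))| ≤
            A k * (MM Ω (fun w => |F w|) / Real.sqrt n ^ k + Real.exp (-(n / C)))) ∧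
        (∀ (s : Fin 3) (q : ℕ), 1 ≤ q → ∀ r : ℤ,
          |MM Ω (fun w => F w * (if fun3 s w ≡ r [ZMOD q] then 1 else 0)) - MM Ω F / q| ≤
            C * (MM Ω (fun w => |F w|) * Real.exp (-(n / (C * q ^ 2))) +
              Real.exp (-(n / C))))) := by
  obtain ⟨Ca, hCa, hmix⟩ := mix Pool.Agent.N787.CM.mixs Pool.Agent.N402.CM.mixb C1 c1 hC1 hc1
  obtain ⟨Cb, hCb, A, hgen⟩ := gen C1 c1 hC1 hc1
  obtain ⟨C, hC⟩ : ∃ C : ℝ, C = 2 * Ca + Cb := ⟨_, rfl⟩
  have hCa' : 2 * Ca ≤ C := by rw [hC]; linarith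
  have hCb' : Cb ≤ C := by rw [hC]; linarith
  have hCa0 : 0 < Ca := by linarith
  have hCb0 : 0 < Cb := by linarith
  have hC0 : 0 < C := by linarith
  refine ⟨C, by linarith, fun k => |A k|, ?_⟩
  intro n Ω hn hsaw hlen hcl hpos hfew V hV
  have hVn : (0 : ℝ) ≤ V.card := Nat.cast_nonneg _
  obtain ⟨u, N, hN, hid⟩ := hmix n Ω hsaw hlen hcl hfew V (by
    have : Ca * (V.card : ℝ) ≤ C * V.card := mul_le_mul_of_nonneg_right (by linarith) hVn
    linarith)
  have hc : (0 : ℝ) < (Ω.card : ℝ) := by exact_mod_cast hpos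
  have hexa : Real.exp (-(n / Ca)) ≤ Real.exp (-(n / C)) := exp_mono hCa0 (by linarith)
  have hexb : Real.exp (-(n / Cb)) ≤ Real.exp (-(n / C)) := exp_mono hCb0 hCb'
  have hn0 : (0 : ℝ) ≤ n := Nat.cast_nonneg _
  refine ⟨u, N, ?_, ?_⟩
  · have h1 : ((Ω.filter (fun w => C * ((∑ t, N w t : ℕ) : ℝ) < n)).card : ℝ) ≤
        ((Ω.filter (fun w => Ca * ((∑ t, N w t : ℕ) : ℝ) < n)).card : ℝ) := by
      rw [Nat.cast_le]
      refine card_le_card fun w hw => ?_
      rw [mem_filter] at hw ⊢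
      refine ⟨hw.1, lt_of_le_of_lt ?_ hw.2⟩
      exact mul_le_mul_of_nonneg_right (by linarith) (Nat.cast_nonneg _)
    calc _ ≤ _ := h1
      _ ≤ Ca * Real.exp (-(n / Ca)) * (Ω.card : ℝ) := hN
      _ ≤ C * Real.exp (-(n / C)) * (Ω.card : ℝ) := by
          have : Ca ≤ C := by linarith
          gcongr
  intro F hF
  refine ⟨hid F hF, fun hF1 => ?_⟩
  have hM0 : 0 ≤ MM Ω (fun w => |F w|) := MM_nonneg fun w => abs_nonneg _
  have hsys : ∀ s : Fin 3, Sys Ω (fun w => (fun3 s w + ((n + 1) ^ 2 : ℕ)).toNat) :=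
    fun s => sys3 s n hsaw hlen hcl
  have hval : ∀ (s : Fin 3), ∀ w ∈ Ω, (((fun3 s w + ((n + 1) ^ 2 : ℕ)).toNat : ℕ) : ℤ) =
      fun3 s w + ((n + 1) ^ 2 : ℕ) := by
    intro s w hw
    have := fun3_le s w
    rw [hlen w hw, abs_le] at this
    rw [Int.toNat_of_nonneg (by linarith)]
  have hVb : Cb * (V.card : ℝ) ≤ n := by
    have : Cb * (V.card : ℝ) ≤ C * V.card := mul_le_mul_of_nonneg_right hCb' hVn
    linarith
  refine ⟨?_, ?_, ?_⟩
  · intro θ φ m hm0 hm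
    have h1 := hid F hF (fun _ _ x => Real.cos (dot θ x + φ))
    have h2 : ∀ w ∈ Ω, |bin (N w) (fun x => Real.cos (dot θ (u w + x) + φ))| ≤
        Real.exp (-(m * ((∑ t, N w t : ℕ) : ℝ) / 2)) := by
      intro w _
      have h3 := bin_cos θ (dot θ (u w) + φ) m hm (N w)
      have e1 : (fun x => Real.cos (dot θ (u w + x) + φ)) =
          fun x => Real.cos (dot θ (u w) + φ + dot θ x) := by
        funext x
        rw [dot_add]
        congr 1
        ring
      rw [e1]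
      exact h3
    have h4 : ∀ w ∈ Ω, |F w * bin (N w) (fun x => Real.cos (dot θ (u w + x) + φ))| ≤
        |F w| * Real.exp (-(m * n / C)) +
          (if Ca * ((∑ t, N w t : ℕ) : ℝ) < n then (1 : ℝ) else 0) := by
      intro w hw
      rw [abs_mul]
      have h5 := h2 w hw
      split_ifs with h6
      · have h7 : Real.exp (-(m * ((∑ t, N w t : ℕ) : ℝ) / 2)) ≤ 1 := by
          rw [Real.exp_le_one_iff]
          have : 0 ≤ m * ((∑ t, N w t : ℕ) : ℝ) / 2 := by positivity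
          linarith
        have h8 : |F w| * |bin (N w) (fun x => Real.cos (dot θ (u w + x) + φ))| ≤ 1 * 1 :=
          mul_le_mul (hF1 w hw) (h5.trans h7) (abs_nonneg _) zero_le_one
        have h9 : 0 ≤ |F w| * Real.exp (-(m * n / C)) := by positivity
        linarith
      · rw [add_zero]
        refine mul_le_mul_of_nonneg_left (h5.trans (Real.exp_le_exp.2 (neg_le_neg ?_)))
          (abs_nonneg _)
        rw [div_le_iff₀ hC0]
        have h7 := not_lt.1 h6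
        have h8 : (n : ℝ) * 2 ≤ ((∑ t, N w t : ℕ) : ℝ) * C := by
          have h9 : ((∑ t, N w t : ℕ) : ℝ) * (2 * Ca) ≤ ((∑ t, N w t : ℕ) : ℝ) * C :=
            mul_le_mul_of_nonneg_left hCa' (Nat.cast_nonneg _)
          linarith
        have h10 := mul_le_mul_of_nonneg_left h8 hm0
        linarith
    have h5 : |∑ w ∈ Ω, F w * Real.cos (dot θ (vec w) + φ)| ≤
        Real.exp (-(m * n / C)) * ∑ w ∈ Ω, |F w| +
          ((Ω.filter (fun w => Ca * ((∑ t, N w t : ℕ) : ℝ) < n)).card : ℝ) := by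
      rw [h1]
      refine (abs_sum_le_sum_abs _ _).trans ((sum_le_sum h4).trans (le_of_eq ?_))
      rw [sum_add_distrib, ← sum_mul, mul_comm, ← Finset.sum_filter, sum_const, nsmul_one]
    have h6 : MM Ω (fun w => |F w|) * (Ω.card : ℝ) = ∑ w ∈ Ω, |F w| := by
      unfold MM
      rw [div_mul_cancel₀ _ hc.ne']
    have h7 : |MM Ω (fun w => F w * Real.cos (dot θ (vec w) + φ))| ≤
        MM Ω (fun w => |F w|) * Real.exp (-(m * n / C)) + Ca * Real.exp (-(n / Ca)) := by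
      unfold MM at h6 ⊢
      rw [abs_div, abs_of_pos hc, div_le_iff₀ hc]
      refine h5.trans ?_
      rw [add_mul]
      refine add_le_add (le_of_eq ?_) hN
      rw [mul_right_comm, h6, mul_comm]
    refine h7.trans ?_
    rw [mul_add]
    have h8 : 0 ≤ MM Ω (fun w => |F w|) * Real.exp (-(m * n / C)) := by positivity
    refine add_le_add (le_mul_of_one_le_left h8 (by linarith)) ?_
    exact mul_le_mul (by linarith) hexa (Real.exp_pos _).le hC0.le
  · intro s k h hh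
    obtain ⟨-, g2, -⟩ := hgen n Ω _ hn (hsys s) hpos hfew V F hVb hF1 hF
    have h1 := g2 k (fun a => h ((a : ℤ) - ((n + 1) ^ 2 : ℕ))) (fun a => hh _)
    have e1 : MM Ω (fun w => F w * ∑ i ∈ range (k + 1), (-1 : ℝ) ^ i * (k.choose i : ℝ) *
        h (fun3 s w + i)) = MM Ω (fun w => F w * ∑ i ∈ range (k + 1), (-1 : ℝ) ^ i *
        (k.choose i : ℝ) * h ((((fun3 s w + ((n + 1) ^ 2 : ℕ)).toNat + i : ℕ) : ℤ) -
          ((n + 1) ^ 2 : ℕ))) := by
      have e3 : ∀ w ∈ Ω, ∀ i : ℕ, fun3 s w + i =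
          (((fun3 s w + ((n + 1) ^ 2 : ℕ)).toNat + i : ℕ) : ℤ) - ((n + 1) ^ 2 : ℕ) := by
        intro w hw i
        rw [Nat.cast_add, hval s w hw]
        ring
      have e4 : ∀ w ∈ Ω, F w * ∑ i ∈ range (k + 1), (-1 : ℝ) ^ i * (k.choose i : ℝ) *
          h (fun3 s w + i) = F w * ∑ i ∈ range (k + 1), (-1 : ℝ) ^ i *
          (k.choose i : ℝ) * h ((((fun3 s w + ((n + 1) ^ 2 : ℕ)).toNat + i : ℕ) : ℤ) -
          ((n + 1) ^ 2 : ℕ)) := by
        intro w hw
        have e5 : ∀ i : ℕ, h (fun3 s w + i) =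
            h ((((fun3 s w + ((n + 1) ^ 2 : ℕ)).toNat + i : ℕ) : ℤ) - ((n + 1) ^ 2 : ℕ)) :=
          fun i => by rw [← e3 w hw i]
        simp only [e5]
      unfold MM
      rw [sum_congr rfl e4]
    rw [e1]
    refine h1.trans ?_
    have h2 : 0 ≤ MM Ω (fun w => |F w|) / Real.sqrt n ^ k := by positivity
    have h3 := (Real.exp_pos (-((n : ℝ) / Cb))).le
    calc A k * (MM Ω (fun w => |F w|) / Real.sqrt n ^ k + Real.exp (-(n / Cb)))
        ≤ |A k| * (MM Ω (fun w => |F w|) / Real.sqrt n ^ k + Real.exp (-(n / Cb))) :=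
          mul_le_mul_of_nonneg_right (le_abs_self _) (by linarith)
      _ ≤ _ := mul_le_mul_of_nonneg_left (by linarith) (abs_nonneg _)
  · intro s q hq r
    obtain ⟨-, -, g3⟩ := hgen n Ω _ hn (hsys s) hpos hfew V F hVb hF1 hF
    have hq0 : (0 : ℤ) < q := by exact_mod_cast hq
    obtain ⟨r', hr'⟩ : ∃ r' : ℕ, (r' : ℤ) = (r + ((n + 1) ^ 2 : ℕ)) % q :=
      ⟨((r + ((n + 1) ^ 2 : ℕ)) % q).toNat, Int.toNat_of_nonneg (Int.emod_nonneg _ hq0.ne')⟩
    have h1 := g3 q hq r'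
    have e1 : MM Ω (fun w => F w * (if fun3 s w ≡ r [ZMOD q] then 1 else 0)) =
        MM Ω (fun w => F w *
          (if (fun3 s w + ((n + 1) ^ 2 : ℕ)).toNat ≡ r' [MOD q] then 1 else 0)) := by
      unfold MM
      congr 1
      refine sum_congr rfl fun w hw => ?_
      congr 1
      have e2 : (fun3 s w ≡ r [ZMOD q]) ↔
          ((fun3 s w + ((n + 1) ^ 2 : ℕ)).toNat ≡ r' [MOD q]) := by
        rw [← Int.natCast_modEq_iff, hval s w hw, hr']
        constructor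
        · intro h2
          exact (h2.add_right _).trans (Int.mod_modEq _ _).symm
        · intro h2
          exact Int.ModEq.add_right_cancel' _ (h2.trans (Int.mod_modEq _ _))
      simp only [e2]
    rw [e1]
    refine h1.trans ?_
    have h4 : Real.exp (-((n : ℝ) / (Cb * q ^ 2))) ≤ Real.exp (-((n : ℝ) / (C * q ^ 2))) := by
      have hq1 : (0 : ℝ) < q := by exact_mod_cast hq
      exact exp_mono (by positivity) (mul_le_mul_of_nonneg_right hCb' (by positivity))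
    refine mul_le_mul hCb' ?_ (by positivity) hC0.le
    exact add_le_add (mul_le_mul_of_nonneg_left h4 hM0) hexb

end Pool.Agent.N949.CM
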