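import Pool.Agent.N949.CM.TSP
import Pool.Agent.N949.AL.Sel

/-!
# The sums of the coordinates and the area as functionals of a self-avoiding word
-/

set_option autoImplicit false

namespace Pool.Agent.N949.CM

open Finset Pool.Agent.H976R2 Pool.Agent.H976R2.Lip Pool.Agent.H924P Pool.Agent.H739K
open Pool.Agent.R54.AS
open Pool.Agent.N949.AL (P2 lab cfl cfl_symm far_nr corner)
open scoped Classical

/-- sum of the first coordinates of the vertices -/
noncomputable def sx (w : List Dir) : ℤ := ∑ j ∈ range (w.length + 1), (PP w j).1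

/-- sum of the second coordinates of the vertices -/
noncomputable def sy (w : List Dir) : ℤ := ∑ j ∈ range (w.length + 1), (PP w j).2

/-- the area between the walk and the axis, `∫ x dy` -/
noncomputable def sa (w : List Dir) : ℤ :=
  ∑ j ∈ range w.length, (PP w j).1 * ((PP w (j + 1)).2 - (PP w j).2)

/-- second difference of the first coordinate -/
noncomputable def dd (w : List Dir) (i : ℕ) : ℤ :=
  (PP w i).1 + (PP w (i + 2)).1 - 2 * (PP w (i + 1)).1

/-- the two coordinates of the diagonal of a corner -/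
noncomputable def ka (w : List Dir) (i : ℕ) : ℤ := (lab w i).2.1 - (lab w i).1.1
noncomputable def kb (w : List Dir) (i : ℕ) : ℤ := (lab w i).2.2 - (lab w i).1.2

theorem kakb {w : List Dir} {i : ℕ} (hi : i ∈ fc w) :
    (ka w i = 1 ∨ ka w i = -1) ∧ (kb w i = 1 ∨ kb w i = -1) ∧ (dd w i = 1 ∨ dd w i = -1) := by
  have h := (Pool.Agent.R715.ASFlip.mem_fc w i).1 hi
  obtain ⟨hi, hp, -⟩ := h
  have h1 := PP_succ w i (by omega)
  have h2 := PP_succ w (i + 1) hi
  unfold ka kb dd lab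
  rw [show i + 2 = i + 1 + 1 from rfl, h2, h1]
  unfold perp at hp
  generalize PP w i = q
  obtain ⟨q1, q2⟩ := q
  generalize lt w i = a at *
  generalize lt w (i + 1) = b at *
  unfold dv
  cases a <;> cases b <;> simp [dx, dy] at hp ⊢ <;> omega

theorem sum_diff {N i : ℕ} (hi : i < N) (f g : ℕ → ℤ) (h : ∀ j, j ≠ i → f j = g j) :
    ∑ j ∈ range N, f j = ∑ j ∈ range N, g j + (f i - g i) := by
  rw [← sum_erase_add (range N) f (mem_range.2 hi), ← sum_erase_add (range N) g (mem_range.2 hi)]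
  have : ∑ j ∈ (range N).erase i, f j = ∑ j ∈ (range N).erase i, g j :=
    sum_congr rfl fun j hj => h j (ne_of_mem_erase hj)
  rw [this]
  ring

theorem sum_diff2 {N i : ℕ} (hi : i + 1 < N) (f g : ℕ → ℤ)
    (h : ∀ j, j ≠ i → j ≠ i + 1 → f j = g j) :
    ∑ j ∈ range N, f j = ∑ j ∈ range N, g j + (f i - g i) + (f (i + 1) - g (i + 1)) := by
  have h1 := sum_diff (i := i) (N := N) (by omega) f (fun j => if j = i then g i else f j)
    (fun j hj => by simp [hj])
  have h2 := sum_diff (i := i + 1) (N := N) hi (fun j => if j = i then g i else f j) g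
    (fun j hj => by
      by_cases h3 : j = i
      · simp [h3]
      · simp only [h3, if_false]
        exact h j h3 hj)
  rw [h1, h2]
  simp
  ring

/-- the change of the functionals under a flip -/
theorem flip_fun {w : List Dir} (hw : Saw w) {i : ℕ} (hi : i ∈ fc w) :
    sx (sw w i) = sx w + dd w i ∧
    sy (sw w i) = sy w - dd w i * (ka w i * kb w i) ∧
    sa (sw w i) = sa w + dd w i * kb w i := by
  obtain ⟨h1, h2, h3, h4, h5, h6, h7, h8, h9, h10⟩ := flip w hw i hi
  have hlen := (Pool.Agent.R715.ASFlip.mem_fc w i).1 hi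
  have hPP : PP (sw w i) (i + 1) = fv w i := Pool.Agent.R715.ASFlip.PP_sw_1 w i hlen.1
  have hab := kakb hi
  have hx : sx (sw w i) = sx w + ((fv w i).1 - (PP w (i + 1)).1) := by
    unfold sx
    rw [h1, sum_diff (i := i + 1) (by omega) _ (fun j => (PP w j).1)
      (fun j hj => by rw [h6 j hj]), hPP]
  have hy : sy (sw w i) = sy w + ((fv w i).2 - (PP w (i + 1)).2) := by
    unfold sy
    rw [h1, sum_diff (i := i + 1) (by omega) _ (fun j => (PP w j).2)
      (fun j hj => by rw [h6 j hj]), hPP]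
  have ha : sa (sw w i) = sa w + ((PP w i).1 * ((fv w i).2 - (PP w i).2) -
      (PP w i).1 * ((PP w (i + 1)).2 - (PP w i).2)) +
      ((fv w i).1 * ((PP w (i + 2)).2 - (fv w i).2) -
        (PP w (i + 1)).1 * ((PP w (i + 2)).2 - (PP w (i + 1)).2)) := by
    unfold sa
    rw [h1, sum_diff2 (i := i) hlen.1 _
      (fun j => (PP w j).1 * ((PP w (j + 1)).2 - (PP w j).2))
      (fun j hj hj' => by
        rw [h6 j hj', h6 (j + 1) (by omega)])]
    rw [hPP, h6 i (by omega), show i + 1 + 1 = i + 2 from rfl, h6 (i + 2) (by omega)]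
  rw [hx, hy, ha]
  have hc := corner w hi
  unfold ka kb dd at hab ⊢
  have e1 : (lab w i).1 = PP w i := rfl
  have e2 : (lab w i).2 = PP w (i + 2) := rfl
  rw [e1, e2] at hc hab
  rw [e1, e2]
  generalize PP w i = p at *
  generalize PP w (i + 2) = q at *
  obtain ⟨p1, p2⟩ := p
  obtain ⟨q1, q2⟩ := q
  obtain ⟨k1, k2, k3⟩ := hab
  dsimp only at *
  obtain ⟨a, ha'⟩ : ∃ a, a = q1 - p1 := ⟨_, rfl⟩
  obtain ⟨b, hb'⟩ : ∃ b, b = q2 - p2 := ⟨_, rfl⟩
  have hq1 : q1 = p1 + a := by linarith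
  have hq2 : q2 = p2 + b := by linarith
  subst hq1 hq2
  simp only [add_sub_cancel_left] at *
  rcases hc with ⟨c1, c2⟩ | ⟨c1, c2⟩ <;> rw [c1, c2] <;> dsimp only <;>
    rcases k1 with rfl | rfl <;> rcases k2 with rfl | rfl <;> refine ⟨?_, ?_, ?_⟩ <;> ring

theorem PP_far {w : List Dir} (hw : Saw w) {i : ℕ} (hi : i ∈ fc w) {j : ℕ} (hj : j ∈ fc w)
    (hc : ¬ cfl (lab w i) (lab w j)) :
    PP (sw w i) j = PP w j ∧ PP (sw w i) (j + 1) = PP w (j + 1) ∧
      PP (sw w i) (j + 2) = PP w (j + 2) ∧ j ∈ fc (sw w i) := by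
  obtain ⟨h1, h2, h3, h4, h5, h6, h7, h8, h9, h10⟩ := flip w hw i hi
  have hnr := far_nr hi hj hc
  have hfar : ¬ (i ≤ j + 1 ∧ j ≤ i + 1) := by
    intro hcon
    exact hnr ((Pool.Agent.R715.ASFlip.mem_nr w i j).2 ⟨hj, Or.inl hcon⟩)
  exact ⟨h6 _ (by omega), h6 _ (by omega), h6 _ (by omega), (h10 j hj hnr).1⟩

theorem dd_far {w : List Dir} (hw : Saw w) {i : ℕ} (hi : i ∈ fc w) {j : ℕ} (hj : j ∈ fc w)
    (hc : ¬ cfl (lab w i) (lab w j)) :
    dd (sw w i) j = dd w j ∧ ka (sw w i) j = ka w j ∧ kb (sw w i) j = kb w j := by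
  obtain ⟨h1, h2, h3, -⟩ := PP_far hw hi hj hc
  unfold dd ka kb lab
  rw [h1, h2, h3]
  exact ⟨rfl, rfl, rfl⟩

theorem sys_of {Ω : Finset (List Dir)} (hsaw : ∀ w ∈ Ω, Saw w)
    (hcl : ∀ w ∈ Ω, ∀ i ∈ fc w, sw w i ∈ Ω) (M : ℕ) (S : List Dir → ℤ)
    (hM : ∀ w ∈ Ω, |S w| ≤ M) (d : List Dir → ℕ → ℤ)
    (hd : ∀ w, Saw w → ∀ i ∈ fc w, S (sw w i) = S w + d w i)
    (hd1 : ∀ w, ∀ i ∈ fc w, d w i = 1 ∨ d w i = -1)
    (hloc : ∀ w, Saw w → ∀ i ∈ fc w, ∀ j ∈ fc w, ¬ cfl (lab w i) (lab w j) →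
      d (sw w i) j = d w j) :
    Sys Ω (fun w => (S w + M).toNat) := by
  have hL : ∀ w ∈ Ω, (((S w + M).toNat : ℕ) : ℤ) = S w + M := by
    intro w hw
    have := hM w hw
    rw [abs_le] at this
    rw [Int.toNat_of_nonneg (by linarith)]
  have hs : ∀ w ∈ Ω, ∀ i ∈ fc w, sL (fun w => (S w + M).toNat) w i = d w i := by
    intro w hw i hi
    unfold sL
    rw [hL _ (hcl w hw i hi), hL w hw, hd w (hsaw w hw) i hi]
    ring
  refine ⟨hsaw, hcl, ?_, ?_⟩
  · intro w hw i hi
    rw [hs w hw i hi]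
    exact hd1 w i hi
  · intro w hw i hi j hj hc
    rw [hs w hw j hj, hs _ (hcl w hw i hi) j (PP_far (hsaw w hw) hi hj hc).2.2.2]
    exact hloc w (hsaw w hw) i hi j hj hc

/-- the three functionals: `0`, `1` for the sums of the coordinates, `2` for the area -/
noncomputable def fun3 (t : Fin 3) (w : List Dir) : ℤ :=
  match t with
  | 0 => sx w
  | 1 => sy w
  | 2 => sa w

theorem PP_le (w : List Dir) : ∀ j ≤ w.length, |(PP w j).1| ≤ j ∧ |(PP w j).2| ≤ j := by
  intro j
  induction j with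
  | zero =>
    intro _
    have : PP w 0 = (0, 0) := by
      unfold PP
      simp [wX_nil, wY_nil]
    rw [this]
    simp
  | succ j ih =>
    intro hj
    have h1 := ih (by omega)
    have h2 := PP_succ w j (by omega)
    have h3 := Pool.Agent.N949.AL.dv_abs (lt w j)
    rw [h2]
    push_cast
    constructor
    · exact (abs_add_le _ _).trans (by linarith [h1.1, h3.1])
    · exact (abs_add_le _ _).trans (by linarith [h1.2, h3.2])

theorem fun3_le (t : Fin 3) (w : List Dir) : |fun3 t w| ≤ ((w.length + 1) ^ 2 : ℕ) := by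
  have hx : ∀ (f : ℕ → ℤ), (∀ j ≤ w.length, |f j| ≤ w.length) →
      |∑ j ∈ range (w.length + 1), f j| ≤ ((w.length + 1) ^ 2 : ℕ) := by
    intro f hf
    refine (abs_sum_le_sum_abs _ _).trans ?_
    refine (sum_le_card_nsmul _ _ (w.length : ℤ) fun j hj => ?_).trans ?_
    · exact hf j (Nat.lt_succ_iff.1 (mem_range.1 hj))
    · rw [card_range, nsmul_eq_mul]
      push_cast
      nlinarith
  have hP := PP_le w
  have hP1 : ∀ j ≤ w.length, |(PP w j).1| ≤ w.length ∧ |(PP w j).2| ≤ w.length := by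
    intro j hj
    have := hP j hj
    have h2 : (j : ℤ) ≤ w.length := by exact_mod_cast hj
    exact ⟨this.1.trans h2, this.2.trans h2⟩
  fin_cases t
  · exact hx _ fun j hj => (hP1 j hj).1
  · exact hx _ fun j hj => (hP1 j hj).2
  · show |∑ j ∈ range w.length, (PP w j).1 * ((PP w (j + 1)).2 - (PP w j).2)| ≤ _
    refine (abs_sum_le_sum_abs _ _).trans ?_
    refine (sum_le_card_nsmul _ _ (w.length : ℤ) fun j hj => ?_).trans ?_
    · rw [mem_range] at hj
      rw [abs_mul]
      have h1 := (hP1 j hj.le).1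
      have h2 : |(PP w (j + 1)).2 - (PP w j).2| ≤ 1 := by
        rw [PP_succ w j hj]
        have := (Pool.Agent.N949.AL.dv_abs (lt w j)).2
        simpa using this
      calc |(PP w j).1| * |(PP w (j + 1)).2 - (PP w j).2| ≤ (w.length : ℤ) * 1 :=
            mul_le_mul h1 h2 (abs_nonneg _) (by positivity)
        _ = w.length := mul_one _
    · rw [card_range, nsmul_eq_mul]
      push_cast
      nlinarith

/-- the three functionals for the walks with `n` steps -/
theorem sys3 (t : Fin 3) (n : ℕ) {Ω : Finset (List Dir)} (hsaw : ∀ w ∈ Ω, Saw w)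
    (hlen : ∀ w ∈ Ω, w.length = n) (hcl : ∀ w ∈ Ω, ∀ i ∈ fc w, sw w i ∈ Ω) :
    Sys Ω (fun w => (fun3 t w + ((n + 1) ^ 2 : ℕ)).toNat) := by
  have hM : ∀ w ∈ Ω, |fun3 t w| ≤ ((n + 1) ^ 2 : ℕ) := by
    intro w hw
    have := fun3_le t w
    rwa [hlen w hw] at this
  fin_cases t
  · refine sys_of hsaw hcl _ _ hM dd (fun w hw i hi => (flip_fun hw hi).1)
      (fun w i hi => (kakb hi).2.2) (fun w hw i hi j hj hc => (dd_far hw hi hj hc).1)
  · refine sys_of hsaw hcl _ _ hM (fun w i => - (dd w i * (ka w i * kb w i)))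
      (fun w hw i hi => ?_) (fun w i hi => ?_) (fun w hw i hi j hj hc => ?_)
    · have := (flip_fun hw hi).2.1
      show sy (sw w i) = sy w + - (dd w i * (ka w i * kb w i))
      rw [this]
      ring
    · obtain ⟨h1, h2, h3⟩ := kakb hi
      rcases h1 with h1 | h1 <;> rcases h2 with h2 | h2 <;> rcases h3 with h3 | h3 <;>
        rw [h1, h2, h3] <;> norm_num
    · obtain ⟨h1, h2, h3⟩ := dd_far hw hi hj hc
      show - (dd (sw w i) j * (ka (sw w i) j * kb (sw w i) j)) = _
      rw [h1, h2, h3]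
  · refine sys_of hsaw hcl _ _ hM (fun w i => dd w i * kb w i)
      (fun w hw i hi => (flip_fun hw hi).2.2) (fun w i hi => ?_) (fun w hw i hi j hj hc => ?_)
    · obtain ⟨h1, h2, h3⟩ := kakb hi
      rcases h2 with h2 | h2 <;> rcases h3 with h3 | h3 <;>
        rw [h2, h3] <;> norm_num
    · obtain ⟨h1, h2, h3⟩ := dd_far hw hi hj hc
      show dd (sw w i) j * kb (sw w i) j = _
      rw [h1, h3]

end Pool.Agent.N949.CM
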