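import Mathlib

/-!
# Project CM (helper949): averages over the classes of a system of switches, statements
-/

set_option autoImplicit false

namespace Pool.Agent.N949.CM

open Finset
open scoped Classical

/-- MIXS: a system of switches.  `Sl w` are the switches of `w`, `Oc w` those which are on, `f w q`
is `w` after the use of the switch `q`, and `K w` does not depend on the switches.  The state of the
switches is uniformly distributed, given `K`. -/
def S_MIXS : Prop := ∀ {α κ β : Type} (Ω : Finset α) (Sl Oc : α → Finset κ) (f : α → κ → α),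
  (∀ w ∈ Ω, Oc w ⊆ Sl w) →
  (∀ w ∈ Ω, ∀ q ∈ Sl w, f w q ∈ Ω ∧ Sl (f w q) = Sl w ∧ f (f w q) q = w ∧
    (q ∈ Oc w → Oc (f w q) = (Oc w).erase q) ∧ (q ∉ Oc w → Oc (f w q) = insert q (Oc w))) →
  ∀ K : α → β, (∀ w ∈ Ω, ∀ q ∈ Sl w, K (f w q) = K w) →
  ∀ Φ : β → Finset κ → ℝ,
    ∑ w ∈ Ω, Φ (K w) (Oc w) =
      ∑ w ∈ Ω, (∑ T ∈ (Sl w).powerset, Φ (K w) T) / 2 ^ (Sl w).card

/-- MIXB: sums over all subsets `T` of a set `E` whose elements have types `τ`, for a function
of the numbers of elements of `T` of the different types -/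
def S_MIXB : Prop := ∀ {κ ι M : Type} [Fintype ι] [AddCommGroup M] (E : Finset κ) (τ : κ → ι)
  (v : ι → M) (g : M → ℝ) (u : M),
    ∑ T ∈ E.powerset, g (u + ∑ q ∈ T, v (τ q)) =
      ∑ j ∈ Fintype.piFinset (fun t => range ((E.filter (fun q => τ q = t)).card + 1)),
        (∏ t, ((E.filter (fun q => τ q = t)).card.choose (j t) : ℝ)) * g (u + ∑ t, j t • v t)

end Pool.Agent.N949.CM
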