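import Pool.Agent.N949.CM.Fun
import Pool.Agent.N949.CM.StmM

/-!
# The joint law of the sums of the coordinates and the area
-/

set_option autoImplicit false

namespace Pool.Agent.N949.CM

open Finset Pool.Agent.H976R2 Pool.Agent.H976R2.Lip Pool.Agent.H924P Pool.Agent.H739K
open Pool.Agent.R54.AS
open Pool.Agent.N949.AL (P2 lab cfl Hs fl Slw Cfr fl_eq mem_Slw Av Pw Pw_card select mem_Pw)
open scoped Classical

/-- the three functionals -/
noncomputable def vec (w : List Dir) : ℤ × ℤ × ℤ := (sx w, sy w, sa w)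

/-- the type of a label: the direction of the diagonal -/
def ty (q : P2 × P2) : Fin 4 :=
  if q.2.1 - q.1.1 = 1 then (if q.2.2 - q.1.2 = 1 then 0 else 2)
  else (if q.2.2 - q.1.2 = 1 then 3 else 1)

/-- the four vectors -/
def vv : Fin 4 → ℤ × ℤ × ℤ := ![(1, -1, 1), (1, -1, -1), (1, 1, -1), (1, 1, 1)]

theorem vec_flip {w : List Dir} (hw : Saw w) {i : ℕ} (hi : i ∈ fc w) :
    (dd w i = 1 → vec (sw w i) = vec w + vv (ty (lab w i))) ∧
    (dd w i = -1 → vec (sw w i) = vec w - vv (ty (lab w i))) := by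
  obtain ⟨h1, h2, h3⟩ := flip_fun hw hi
  obtain ⟨h4, h5, -⟩ := kakb hi
  have e1 : (lab w i).2.1 - (lab w i).1.1 = ka w i := rfl
  have e2 : (lab w i).2.2 - (lab w i).1.2 = kb w i := rfl
  unfold vec ty
  rw [h1, h2, h3, e1, e2]
  have v0 : vv 0 = (1, -1, 1) := rfl
  have v1 : vv 1 = (1, -1, -1) := rfl
  have v2 : vv 2 = (1, 1, -1) := rfl
  have v3 : vv 3 = (1, 1, 1) := rfl
  rcases h4 with h4 | h4 <;> rcases h5 with h5 | h5 <;> rw [h4, h5] <;>
    constructor <;> intro h6 <;> rw [h6] <;> norm_num [v0, v1, v2, v3, Prod.ext_iff] <;> omega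

/-- the sum of the first coordinates, shifted -/
noncomputable def L0 (n : ℕ) (w : List Dir) : ℕ := (fun3 0 w + ((n + 1) ^ 2 : ℕ)).toNat

theorem sL0 {n : ℕ} {w : List Dir} (hw : Saw w) (hn : w.length = n) {i : ℕ} (hi : i ∈ fc w) :
    sL (L0 n) w i = dd w i := by
  obtain ⟨h1, -⟩ := flip w hw i hi
  have hM : ∀ w' : List Dir, w'.length = n →
      (((fun3 0 w' + ((n + 1) ^ 2 : ℕ)).toNat : ℕ) : ℤ) = fun3 0 w' + ((n + 1) ^ 2 : ℕ) := by
    intro w' hw'
    have := fun3_le 0 w'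
    rw [hw', abs_le] at this
    rw [Int.toNat_of_nonneg (by linarith)]
  unfold sL L0
  rw [hM w hn, hM (sw w i) (h1.trans hn)]
  have := (flip_fun hw hi).1
  show sx (sw w i) + _ - (sx w + _) = _
  rw [this]
  ring

/-- the part of the three functionals which does not depend on the switches -/
noncomputable def bas (n : ℕ) (L : Finset (P2 × P2)) (w : List Dir) : ℤ × ℤ × ℤ :=
  vec w - ∑ q ∈ Ocw (L0 n) L w, vv (ty q)

/-- the numbers of the switches of the four types -/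
noncomputable def num (L : Finset (P2 × P2)) (w : List Dir) (t : Fin 4) : ℕ :=
  ((Slw L w).filter (fun q => ty q = t)).card

theorem bas_sw {n : ℕ} {Ω : Finset (List Dir)} (hsaw : ∀ w ∈ Ω, Saw w)
    (hlen : ∀ w ∈ Ω, w.length = n) (hcl : ∀ w ∈ Ω, ∀ i ∈ fc w, sw w i ∈ Ω)
    {L : Finset (P2 × P2)} (hL : Cfr L) {w : List Dir} (hw : w ∈ Ω) {i : ℕ} (hi : i ∈ fc w)
    (hiL : lab w i ∈ L) : bas n L (sw w i) = bas n L w := by
  have H := sys3 0 n hsaw hlen hcl
  obtain ⟨h1, h2⟩ := Oc_sw H hL hw hi hiL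
  obtain ⟨h3, h4⟩ := vec_flip (hsaw w hw) hi
  have hs : sL (fun w => (fun3 0 w + ((n + 1) ^ 2 : ℕ)).toNat) w i = dd w i :=
    sL0 (hsaw w hw) (hlen w hw) hi
  rw [hs] at h1 h2
  have k1 : ∀ L' w', Ocw (fun w => (fun3 0 w + ((n + 1) ^ 2 : ℕ)).toNat) L' w' =
      Ocw (L0 n) L' w' := fun _ _ => rfl
  simp only [k1] at h1 h2
  unfold bas
  rcases (kakb hi).2.2 with h5 | h5
  · have hq : lab w i ∉ Ocw (L0 n) L w := by
      rw [mem_Ocw]
      rintro ⟨-, j, hj, hj1, hj2⟩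
      have := Pool.Agent.N949.AL.lab_inj (hsaw w hw) hj hi hj1
      subst this
      rw [sL0 (hsaw w hw) (hlen w hw) hj, h5] at hj2
      norm_num at hj2
    rw [h3 h5, h1 h5, sum_insert hq]
    abel
  · have hq : lab w i ∈ Ocw (L0 n) L w := by
      rw [mem_Ocw]
      exact ⟨hiL, i, hi, rfl, by rw [sL0 (hsaw w hw) (hlen w hw) hi, h5]⟩
    rw [h4 h5, h2 h5, ← add_sum_erase _ _ hq]
    abel

/-- mean of `h` over the sum of independent binomial multiples of the four vectors -/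
noncomputable def bin (N : Fin 4 → ℕ) (h : ℤ × ℤ × ℤ → ℝ) : ℝ :=
  ∑ j ∈ Fintype.piFinset (fun t => range (N t + 1)),
    (∏ t, ((N t).choose (j t) : ℝ) / 2 ^ N t) * h (∑ t, j t • vv t)

theorem num_sum (L : Finset (P2 × P2)) (w : List Dir) : ∑ t, num L w t = (Slw L w).card := by
  unfold num
  exact (card_eq_sum_card_fiberwise (f := ty) (s := Slw L w) (t := univ)
    (fun _ _ => mem_coe.2 (mem_univ _))).symm

theorem num_sw {n : ℕ} {Ω : Finset (List Dir)} (hsaw : ∀ w ∈ Ω, Saw w)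
    (hlen : ∀ w ∈ Ω, w.length = n) (hcl : ∀ w ∈ Ω, ∀ i ∈ fc w, sw w i ∈ Ω)
    {L : Finset (P2 × P2)} (hL : Cfr L) {w : List Dir} (hw : w ∈ Ω) {i : ℕ} (hi : i ∈ fc w)
    (hiL : lab w i ∈ L) : num L (sw w i) = num L w := by
  have H := sys3 0 n hsaw hlen hcl
  unfold num
  rw [Sl_sw H hL hw hi hiL]

/-- the joint law of the three functionals, for a given set of labels -/
theorem mix_L (hS : S_MIXS) (hB : S_MIXB) {n : ℕ} {Ω : Finset (List Dir)}
    (hsaw : ∀ w ∈ Ω, Saw w) (hlen : ∀ w ∈ Ω, w.length = n)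
    (hcl : ∀ w ∈ Ω, ∀ i ∈ fc w, sw w i ∈ Ω) {L : Finset (P2 × P2)} (hL : Cfr L)
    (F : List Dir → ℝ) (hF : ∀ w ∈ Ω, ∀ i ∈ fc w, lab w i ∈ L → F (sw w i) = F w)
    (h : ℤ × ℤ × ℤ → (Fin 4 → ℕ) → ℤ × ℤ × ℤ → ℝ) :
    ∑ w ∈ Ω, F w * h (bas n L w) (num L w) (vec w) =
      ∑ w ∈ Ω, F w * bin (num L w) (fun x => h (bas n L w) (num L w) (bas n L w + x)) := by
  have H := sys3 0 n hsaw hlen hcl
  have hfl : ∀ w ∈ Ω, ∀ q ∈ Slw L w, ∃ i ∈ fc w, lab w i = q ∧ fl w q = sw w i ∧ q ∈ L := by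
    intro w hw q hq
    rw [mem_Slw] at hq
    obtain ⟨hqL, i, hi, rfl⟩ := hq
    exact ⟨i, hi, rfl, fl_eq (hsaw w hw) hi, hqL⟩
  have key := hS Ω (Slw L) (Ocw (L0 n) L) fl (fun w hw q hq => by
      rw [mem_Ocw] at hq
      rw [mem_Slw]
      obtain ⟨h1, i, h2, h3, -⟩ := hq
      exact ⟨h1, i, h2, h3⟩) (fun w hw q hq => by
      obtain ⟨i, hi, hiq, hfi, hqL⟩ := hfl w hw q hq
      rw [← hiq] at hqL
      obtain ⟨h1, h2, h3, h4, h5, h6, h7, h8, h9⟩ := flip_all H hw hi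
      obtain ⟨o1, o2⟩ := Oc_sw H hL hw hi hqL
      have hs : sL (fun w => (fun3 0 w + ((n + 1) ^ 2 : ℕ)).toNat) w i = dd w i :=
        sL0 (hsaw w hw) (hlen w hw) hi
      rw [hs] at o1 o2
      have k1 : ∀ L' w', Ocw (fun w => (fun3 0 w + ((n + 1) ^ 2 : ℕ)).toNat) L' w' =
          Ocw (L0 n) L' w' := fun _ _ => rfl
      simp only [k1] at o1 o2
      rw [hfi]
      refine ⟨h1, Sl_sw H hL hw hi hqL, ?_, ?_, ?_⟩
      · rw [← hiq, ← h4, fl_eq (H.saw _ h1) h2]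
        exact h3
      · intro hq'
        rw [mem_Ocw] at hq'
        obtain ⟨-, j, hj, hj1, hj2⟩ := hq'
        rw [← hiq] at hj1
        have := Pool.Agent.N949.AL.lab_inj (hsaw w hw) hj hi hj1
        subst this
        rw [sL0 (hsaw w hw) (hlen w hw) hj] at hj2
        rw [o2 hj2, hiq]
        ext x
        simp only [mem_erase]
      · intro hq'
        have : dd w i = 1 := by
          rcases (kakb hi).2.2 with h10 | h10
          · exact h10
          · exfalso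
            refine hq' ?_
            rw [mem_Ocw]
            refine ⟨hiq ▸ hqL, i, hi, hiq, ?_⟩
            rw [sL0 (hsaw w hw) (hlen w hw) hi, h10]
        rw [o1 this, hiq]
        ext x
        simp only [mem_insert])
    (fun w => (F w, bas n L w, num L w)) (fun w hw q hq => by
      obtain ⟨i, hi, hiq, hfi, hqL⟩ := hfl w hw q hq
      rw [← hiq] at hqL
      rw [hfi, hF w hw i hi hqL, bas_sw hsaw hlen hcl hL hw hi hqL,
        num_sw hsaw hlen hcl hL hw hi hqL])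
    (fun k T => k.1 * h k.2.1 k.2.2 (k.2.1 + ∑ q ∈ T, vv (ty q)))
  have e1 : ∑ w ∈ Ω, F w * h (bas n L w) (num L w) (vec w) = ∑ w ∈ Ω, F w *
      h (bas n L w) (num L w) (bas n L w + ∑ q ∈ Ocw (L0 n) L w, vv (ty q)) := by
    refine sum_congr rfl fun w _ => ?_
    congr 2
    unfold bas
    abel
  rw [e1]
  refine key.trans (sum_congr rfl fun w hw => ?_)
  dsimp only
  rw [← mul_sum, mul_div_assoc]
  congr 1
  rw [hB (Slw L w) ty vv (h (bas n L w) (num L w)) (bas n L w)]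
  unfold bin
  rw [sum_div]
  have e3 : ∀ t, (@Finset.filter _ (fun q => ty q = t)
      (fun q => Classical.propDecidable (ty q = t)) (Slw L w)).card = num L w t := by
    intro t
    unfold num
    refine congrArg card ?_
    ext q
    simp only [mem_filter]
  simp only [e3]
  refine sum_congr (by
    ext j
    simp only [Fintype.mem_piFinset]) fun j _ => ?_
  have e2 : (2 : ℝ) ^ (Slw L w).card = ∏ t, (2 : ℝ) ^ (num L w t) := by
    rw [prod_pow_eq_pow_sum, num_sum]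
  rw [e2, prod_div_distrib, div_mul_eq_mul_div]

/-- the joint law of the three functionals -/
theorem mix (hS : S_MIXS) (hB : S_MIXB) (C1 c1 : ℝ) (hC1 : 0 < C1) (hc1 : 0 < c1) :
    ∃ C : ℝ, 1 ≤ C ∧ ∀ (n : ℕ) (Ω : Finset (List Dir)), (∀ w ∈ Ω, Saw w) →
    (∀ w ∈ Ω, w.length = n) → (∀ w ∈ Ω, ∀ i ∈ fc w, sw w i ∈ Ω) →
    ((Ω.filter (fun w => ((fc w).card : ℝ) < n / 50)).card : ℝ) ≤
      C1 * Real.exp (-(c1 * n)) * (Ω.card : ℝ) →
    ∀ V : Finset P2, C * V.card ≤ n →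
    ∃ (u : List Dir → ℤ × ℤ × ℤ) (N : List Dir → Fin 4 → ℕ),
      ((Ω.filter (fun w => C * ((∑ t, N w t : ℕ) : ℝ) < n)).card : ℝ) ≤
        C * Real.exp (-(n / C)) * (Ω.card : ℝ) ∧
      ∀ F : List Dir → ℝ, (∀ w ∈ Ω, ∀ i ∈ fc w, Av V (lab w i) → F (sw w i) = F w) →
      ∀ h : ℤ × ℤ × ℤ → (Fin 4 → ℕ) → ℤ × ℤ × ℤ → ℝ,
        ∑ w ∈ Ω, F w * h (u w) (N w) (vec w) =
          ∑ w ∈ Ω, F w * bin (N w) (fun x => h (u w) (N w) (u w + x)) := by
  obtain ⟨κ, hκ, hsel⟩ := select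
  have hκ0 : (0 : ℝ) < κ := by exact_mod_cast hκ
  obtain ⟨C, hC⟩ : ∃ C : ℝ, C = 2500 + 100 * κ + (2 * C1 + 1) + 1 / c1 := ⟨_, rfl⟩
  have d1 : 0 < 1 / c1 := by positivity
  have hC2 : 2500 ≤ C := by rw [hC]; linarith
  have hC3 : 100 * κ ≤ C := by rw [hC]; linarith
  have hC4 : 2 * C1 + 1 ≤ C := by rw [hC]; linarith
  have hC5 : 1 / c1 ≤ C := by rw [hC]; linarith
  have hC0 : 0 < C := by linarith
  refine ⟨C, by linarith, ?_⟩
  intro n Ω hsaw hlen hcl hfew V hV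
  have hV' : (2500 : ℝ) * V.card ≤ n :=
    (mul_le_mul_of_nonneg_right hC2 (Nat.cast_nonneg _)).trans hV
  obtain ⟨L, hL, hLV, hs⟩ := hsel Ω V
  refine ⟨bas n L, num L, ?_, ?_⟩
  · have e1 : Real.exp (-(c1 * n)) ≤ Real.exp (-(n / C)) := by
      refine Real.exp_le_exp.2 (neg_le_neg ?_)
      rw [div_le_iff₀ hC0]
      rw [div_le_iff₀ hc1] at hC5
      have h1 : (n : ℝ) * 1 ≤ n * (C * c1) := mul_le_mul_of_nonneg_left hC5 (Nat.cast_nonneg _)
      linarith
    have e2 : Real.exp (-((n : ℝ) / 100 / κ)) ≤ Real.exp (-(n / C)) := by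
      refine Real.exp_le_exp.2 (neg_le_neg ?_)
      rw [div_div]
      exact div_le_div_of_nonneg_left (Nat.cast_nonneg _) (by positivity) hC3
    have hgood : ∀ w ∈ Ω, ¬ ((fc w).card : ℝ) < n / 50 → (n : ℝ) / 100 ≤ (Pw V w).card := by
      intro w hw h0
      have h3 : ((fc w).card : ℝ) ≤ (Pw V w).card + 25 * V.card := by
        exact_mod_cast Pw_card (hsaw _ hw) V
      linarith [not_lt.1 h0]
    have hsub : Ω.filter (fun w => C * ((∑ t, num L w t : ℕ) : ℝ) < n) ⊆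
        Ω.filter (fun w => ((fc w).card : ℝ) < n / 50) ∪
          Ω.filter (fun w => κ * (Slw L w).card < (Pw V w).card) := by
      intro w hw
      rw [mem_filter, num_sum] at hw
      rw [mem_union, mem_filter, mem_filter]
      by_contra hcon
      rw [not_or] at hcon
      have h1 : ¬ ((fc w).card : ℝ) < n / 50 := fun h => hcon.1 ⟨hw.1, h⟩
      have h2 : ¬ κ * (Slw L w).card < (Pw V w).card := fun h => hcon.2 ⟨hw.1, h⟩
      have h3 := hgood w hw.1 h1
      have h4 : ((Pw V w).card : ℝ) ≤ κ * (Slw L w).card := by exact_mod_cast not_lt.1 h2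
      have h5 : 100 * κ * ((Slw L w).card : ℝ) ≤ C * (Slw L w).card :=
        mul_le_mul_of_nonneg_right hC3 (Nat.cast_nonneg _)
      linarith [hw.2]
    have h1 : ((Ω.filter (fun w => C * ((∑ t, num L w t : ℕ) : ℝ) < n)).card : ℝ) ≤
        ((Ω.filter (fun w => ((fc w).card : ℝ) < n / 50)).card : ℝ) +
          ((Ω.filter (fun w => κ * (Slw L w).card < (Pw V w).card)).card : ℝ) := by
      exact_mod_cast (card_le_card hsub).trans (card_union_le _ _)
    have h2 : ∑ w ∈ Ω, Real.exp (-(((Pw V w).card : ℝ) / κ)) ≤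
        ((Ω.filter (fun w => ((fc w).card : ℝ) < n / 50)).card : ℝ) +
          Real.exp (-((n : ℝ) / 100 / κ)) * (Ω.card : ℝ) := by
      have e3 : ((Ω.filter (fun w => ((fc w).card : ℝ) < n / 50)).card : ℝ) =
          ∑ w ∈ Ω, (if ((fc w).card : ℝ) < n / 50 then (1 : ℝ) else 0) := by
        rw [← Finset.sum_filter, sum_const, nsmul_one]
      have e4 : Real.exp (-((n : ℝ) / 100 / κ)) * (Ω.card : ℝ) =
          ∑ _w ∈ Ω, Real.exp (-((n : ℝ) / 100 / κ)) := by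
        rw [sum_const, nsmul_eq_mul, mul_comm]
      rw [e3, e4, ← sum_add_distrib]
      refine sum_le_sum fun w hw => ?_
      split_ifs with h0
      · have h4 : Real.exp (-(((Pw V w).card : ℝ) / κ)) ≤ 1 := by
          rw [Real.exp_le_one_iff]
          have : 0 ≤ ((Pw V w).card : ℝ) / κ := by positivity
          linarith
        have h5 := (Real.exp_pos (-((n : ℝ) / 100 / κ))).le
        linarith
      · have h4 : Real.exp (-(((Pw V w).card : ℝ) / κ)) ≤ Real.exp (-((n : ℝ) / 100 / κ)) :=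
          Real.exp_le_exp.2 (neg_le_neg (div_le_div_of_nonneg_right (hgood w hw h0) hκ0.le))
        linarith
    have hc0 : (0 : ℝ) ≤ (Ω.card : ℝ) := Nat.cast_nonneg _
    calc ((Ω.filter (fun w => C * ((∑ t, num L w t : ℕ) : ℝ) < n)).card : ℝ)
        ≤ 2 * (C1 * Real.exp (-(c1 * n)) * (Ω.card : ℝ)) +
          Real.exp (-((n : ℝ) / 100 / κ)) * (Ω.card : ℝ) := by linarith
      _ ≤ 2 * (C1 * Real.exp (-(n / C)) * (Ω.card : ℝ)) +
          Real.exp (-(n / C)) * (Ω.card : ℝ) := by gcongr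
      _ = (2 * C1 + 1) * Real.exp (-(n / C)) * (Ω.card : ℝ) := by ring
      _ ≤ C * Real.exp (-(n / C)) * (Ω.card : ℝ) := by gcongr
  · intro F hF h
    exact mix_L hS hB hsaw hlen hcl hL F
      (fun w hw i hi hiL => hF w hw i hi (hLV _ hiL)) h

end Pool.Agent.N949.CM
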