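import Pool.Agent.N949.CM.Fin
import Pool.Agent.N949.AL.Fin

/-!
# The joint law of the sums of the coordinates and the signed area of a self-avoiding polygon
-/

set_option autoImplicit false

namespace Pool.Agent.N949.CM

open Finset Pool.Agent.H976R2 Pool.Agent.H976R2.Lip Pool.Agent.H924P Pool.Agent.H739K
open Pool.Agent.R54.AS
open Pool.Agent.N949.AL (P2 lab Av corner Unch loop_flip)
open scoped Classical

/-- the sums of the coordinates and the signed area of a loop -/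
def VX (n : ℕ) (f : ZMod (2 * n) → ℤ × ℤ) : ℤ × ℤ × ℤ :=
  (∑ k ∈ range (2 * n), (f k).1, ∑ k ∈ range (2 * n), (f k).2,
    ∑ k ∈ range (2 * n), (f k).1 * ((f (k + 1)).2 - (f k).2))

theorem lp_nat {N k : ℕ} (hN : 2 ≤ N) (hk : k < 2 * N) (w : List Dir) :
    lp (2 * N) w (k : ZMod (2 * N)) = PP w k := by
  have : NeZero (2 * N) := ⟨by omega⟩
  unfold H739K.lp PP
  rw [ZMod.val_natCast_of_lt hk]

theorem VX_lp {N : ℕ} (hN : 2 ≤ N) {w : List Dir} (hw : w ∈ KP (2 * N - 1)) :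
    VX N (lp (2 * N) w) = vec w := by
  have hm := Pool.Agent.R54.AS.Fin.mem_KP.mp hw
  have hl : w.length + 1 = 2 * N := by
    have := hm.1
    omega
  have hl2 : 2 * N - 1 + 1 = 2 * N := by omega
  have e1 : ∑ k ∈ range (2 * N), (lp (2 * N) w (k : ZMod (2 * N))).1 = sx w := by
    unfold sx
    rw [hl]
    exact sum_congr rfl fun k hk => by rw [lp_nat hN (mem_range.1 hk)]
  have e2 : ∑ k ∈ range (2 * N), (lp (2 * N) w (k : ZMod (2 * N))).2 = sy w := by
    unfold sy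
    rw [hl]
    exact sum_congr rfl fun k hk => by rw [lp_nat hN (mem_range.1 hk)]
  have e3 : ∑ k ∈ range (2 * N), (lp (2 * N) w (k : ZMod (2 * N))).1 *
      ((lp (2 * N) w ((k : ZMod (2 * N)) + 1)).2 - (lp (2 * N) w (k : ZMod (2 * N))).2) =
      sa w := by
    have h0 : lp (2 * N) w (0 : ZMod (2 * N)) = (0, 0) := by
      have := lp_nat (k := 0) hN (by omega) w
      rw [Nat.cast_zero] at this
      rw [this]
      unfold PP
      simp [wX_nil, wY_nil]
    have hlast : (PP w (2 * N - 1)).1 * (PP w (2 * N - 1)).2 = 0 := by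
      have h1 : Pool.Agent.H976R2.sq w = 1 := hm.2.2
      have h2 : PP w (2 * N - 1) = (wX w, wY w) := by
        unfold PP
        rw [List.take_of_length_le (by omega)]
      rw [h2]
      unfold Pool.Agent.H976R2.sq at h1
      dsimp only
      by_contra hne
      have h3 : wX w ≠ 0 := fun h => hne (by rw [h]; ring)
      have h4 : wY w ≠ 0 := fun h => hne (by rw [h]; ring)
      have h5 : 1 ≤ wX w ^ 2 := by
        have := sq_pos_of_ne_zero h3
        omega
      have h6 : 1 ≤ wY w ^ 2 := by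
        have := sq_pos_of_ne_zero h4
        omega
      have h7 : wX w ^ 2 + wY w ^ 2 = 1 := by exact_mod_cast h1
      linarith
    have hr : range (2 * N) = range (2 * N - 1 + 1) := by rw [hl2]
    rw [hr, sum_range_succ]
    have e4 : ∑ k ∈ range (2 * N - 1), (lp (2 * N) w (k : ZMod (2 * N))).1 *
      ((lp (2 * N) w ((k : ZMod (2 * N)) + 1)).2 - (lp (2 * N) w (k : ZMod (2 * N))).2) =
        sa w := by
      unfold sa
      rw [hm.1]
      refine sum_congr rfl fun k hk => ?_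
      rw [mem_range] at hk
      rw [show (k : ZMod (2 * N)) + 1 = ((k + 1 : ℕ) : ZMod (2 * N)) by push_cast; ring,
        lp_nat hN (by omega), lp_nat hN (by omega)]
    rw [e4]
    have e5 : ((2 * N - 1 : ℕ) : ZMod (2 * N)) + 1 = 0 := by
      have : (((2 * N - 1 : ℕ) : ZMod (2 * N)) + 1) = ((2 * N - 1 + 1 : ℕ) : ZMod (2 * N)) := by
        push_cast; ring
      rw [this, hl2]
      exact ZMod.natCast_self _
    rw [e5, h0, lp_nat hN (by omega)]
    dsimp only
    linarith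
  unfold VX vec
  rw [e1, e2, e3]

/-- the statement for polygons, on words -/
theorem fin_poly : ∃ C : ℝ, 1 ≤ C ∧ ∃ A : ℕ → ℝ, ∀ N : ℕ, 2 ≤ N → ∀ V : Finset P2,
    C * V.card ≤ N →
    ∃ (u : List Dir → ℤ × ℤ × ℤ) (M : List Dir → Fin 4 → ℕ),
      (((KP (2 * N - 1)).filter (fun w => C * ((∑ t, M w t : ℕ) : ℝ) < N)).card : ℝ) ≤
        C * Real.exp (-(N / C)) * ((KP (2 * N - 1)).card : ℝ) ∧
      ∀ F : List Dir → ℝ,
      (∀ w ∈ KP (2 * N - 1), ∀ i ∈ fc w, Av V (lab w i) → F (sw w i) = F w) →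
      (∀ h : ℤ × ℤ × ℤ → (Fin 4 → ℕ) → ℤ × ℤ × ℤ → ℝ,
        ∑ w ∈ KP (2 * N - 1), F w * h (u w) (M w) (vec w) =
          ∑ w ∈ KP (2 * N - 1), F w * bin (M w) (fun x => h (u w) (M w) (u w + x))) ∧
      ((∀ w ∈ KP (2 * N - 1), |F w| ≤ 1) →
        (∀ (θ : ℝ × ℝ × ℝ) (φ m : ℝ), 0 ≤ m → (∀ t, m ≤ Real.sin (dot θ (vv t) / 2) ^ 2) →
          |MM (KP (2 * N - 1)) (fun w => F w * Real.cos (dot θ (vec w) + φ))| ≤
            C * (MM (KP (2 * N - 1)) (fun w => |F w|) * Real.exp (-(m * N / C)) +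
              Real.exp (-(N / C)))) ∧
        (∀ (s : Fin 3) (k : ℕ) (h : ℤ → ℝ), (∀ a, |h a| ≤ 1) →
          |MM (KP (2 * N - 1)) (fun w => F w * ∑ i ∈ range (k + 1), (-1 : ℝ) ^ i *
            (k.choose i : ℝ) * h (fun3 s w + i))| ≤
            A k * (MM (KP (2 * N - 1)) (fun w => |F w|) / Real.sqrt N ^ k +
              Real.exp (-(N / C)))) ∧
        (∀ (s : Fin 3) (q : ℕ), 1 ≤ q → ∀ r : ℤ,
          |MM (KP (2 * N - 1)) (fun w => F w * (if fun3 s w ≡ r [ZMOD q] then 1 else 0)) -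
              MM (KP (2 * N - 1)) F / q| ≤
            C * (MM (KP (2 * N - 1)) (fun w => |F w|) * Real.exp (-(N / (C * q ^ 2))) +
              Real.exp (-(N / C))))) := by
  obtain ⟨C1, c1, hC1, hc1, hfew⟩ := Pool.Agent.R54.AS.Fin.few_exp
  obtain ⟨C, hC, A, h⟩ := fin_words C1 c1 hC1 hc1
  refine ⟨C, hC, fun k => |A k|, ?_⟩
  intro N hN V hV
  have hC0 : 0 < C := by linarith
  obtain ⟨n, hn⟩ : ∃ n, n = 2 * N - 1 := ⟨_, rfl⟩
  have hn3 : 3 ≤ n := by omega
  have hnN : (N : ℝ) ≤ n := by exact_mod_cast (by omega : N ≤ n)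
  have hNr : (2 : ℝ) ≤ N := by exact_mod_cast hN
  have hcp : (0 : ℝ) < ((KP (2 * N - 1)).card : ℝ) := Pool.Agent.R54.AS.Fin.card_pos hN
  rw [← hn] at hcp ⊢
  have hlen : ∀ w ∈ KP n, w.length = n := fun w hw => (Pool.Agent.R54.AS.Fin.mem_KP.mp hw).1
  have hsaw : ∀ w ∈ KP n, Saw w := fun w hw => (Pool.Agent.R54.AS.Fin.mem_KP.mp hw).2.1
  have hcl : ∀ w ∈ KP n, ∀ i ∈ fc w, sw w i ∈ KP n := fun w hw i hi =>
    (Pool.Agent.N949.AL.flip_all hn3 hw hi).1
  obtain ⟨u, M, hM, hall⟩ := h n (KP n) (by omega) hsaw hlen hcl (by exact_mod_cast hcp) (by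
      have h1 : (((KP n).filter (fun w => ((fc w).card : ℝ) < n / 50)).card : ℝ) ≤
          ((fewc n).card : ℝ) := by
        rw [Nat.cast_le]
        refine Finset.card_le_card fun w hw => ?_
        rw [mem_filter] at hw
        unfold fewc
        rw [mem_filter]
        exact ⟨(mem_filter.mp hw.1).1, hw.2⟩
      exact h1.trans (hfew n hn3 (by omega))) V (hV.trans hnN)
  have hex : ∀ b : ℝ, 0 < b → Real.exp (-((n : ℝ) / b)) ≤ Real.exp (-((N : ℝ) / b)) := by
    intro b hb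
    exact Real.exp_le_exp.2 (neg_le_neg (div_le_div_of_nonneg_right hnN hb.le))
  refine ⟨u, M, ?_, ?_⟩
  · refine le_trans ?_ (hM.trans ?_)
    · rw [Nat.cast_le]
      refine card_le_card fun w hw => ?_
      rw [mem_filter] at hw ⊢
      exact ⟨hw.1, hw.2.trans_le hnN⟩
    · exact mul_le_mul_of_nonneg_right (mul_le_mul_of_nonneg_left (hex C hC0) hC0.le) hcp.le
  intro F hF
  obtain ⟨g1, g2⟩ := hall F hF
  refine ⟨g1, fun hF1 => ?_⟩
  obtain ⟨g3, g4, g5⟩ := g2 hF1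
  have hM0 : 0 ≤ MM (KP n) (fun w => |F w|) := MM_nonneg fun w => abs_nonneg _
  refine ⟨?_, ?_, ?_⟩
  · intro θ φ m hm0 hm
    refine (g3 θ φ m hm0 hm).trans (mul_le_mul_of_nonneg_left (add_le_add ?_ (hex C hC0)) hC0.le)
    refine mul_le_mul_of_nonneg_left (Real.exp_le_exp.2 (neg_le_neg ?_)) hM0
    exact div_le_div_of_nonneg_right (mul_le_mul_of_nonneg_left hnN hm0) hC0.le
  · intro s k h' hh'
    have h1 := g4 s k h' hh'
    have h2 : 0 < Real.sqrt (N : ℝ) := Real.sqrt_pos.2 (by linarith)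
    have h3 : Real.sqrt (N : ℝ) ^ k ≤ Real.sqrt (n : ℝ) ^ k :=
      pow_le_pow_left₀ h2.le (Real.sqrt_le_sqrt hnN) k
    have h4 : MM (KP n) (fun w => |F w|) / Real.sqrt n ^ k ≤
        MM (KP n) (fun w => |F w|) / Real.sqrt N ^ k :=
      div_le_div_of_nonneg_left hM0 (by positivity) h3
    have h5 : 0 ≤ MM (KP n) (fun w => |F w|) / Real.sqrt n ^ k := by positivity
    have h6 := (Real.exp_pos (-((n : ℝ) / C))).le
    calc _ ≤ _ := h1
      _ ≤ |A k| * (MM (KP n) (fun w => |F w|) / Real.sqrt n ^ k + Real.exp (-(n / C))) :=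
          mul_le_mul_of_nonneg_right (le_abs_self _) (by linarith)
      _ ≤ _ := mul_le_mul_of_nonneg_left (add_le_add h4 (hex C hC0)) (abs_nonneg _)
  · intro s q hq r
    have hq0 : (0 : ℝ) < q := by exact_mod_cast hq
    refine (g5 s q hq r).trans (mul_le_mul_of_nonneg_left (add_le_add ?_ (hex C hC0)) hC0.le)
    exact mul_le_mul_of_nonneg_left (hex _ (by positivity)) hM0

end Pool.Agent.N949.CM
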