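import Pool.Agent.N949.AL.TSP

/-!
# The free corners of a self-avoiding walk as switches of a functional
-/

set_option autoImplicit false

namespace Pool.Agent.N949.CM

open Finset Pool.Agent.H976R2 Pool.Agent.H976R2.Lip Pool.Agent.H924P Pool.Agent.H739K
open Pool.Agent.R54.AS
open Pool.Agent.N949.AO (TS Inv)
open Pool.Agent.N949.AL (P2 lab cfl cfl_symm dv_abs lab_inj far_nr Hs fl Slw Cfr fl_eq mem_Slw)
open scoped Classical

/-- change of the functional -/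
noncomputable def sL (Lf : List Dir → ℕ) (w : List Dir) (i : ℕ) : ℤ := (Lf (sw w i) : ℤ) - Lf w

/-- a set of self-avoiding words which is closed under flips, and a functional which is changed by
one by every flip, independently of flips of far corners -/
structure Sys (Ω : Finset (List Dir)) (Lf : List Dir → ℕ) : Prop where
  saw : ∀ w ∈ Ω, Saw w
  cl : ∀ w ∈ Ω, ∀ i ∈ fc w, sw w i ∈ Ω
  st : ∀ w ∈ Ω, ∀ i ∈ fc w, sL Lf w i = 1 ∨ sL Lf w i = -1
  lo : ∀ w ∈ Ω, ∀ i ∈ fc w, ∀ j ∈ fc w, ¬ cfl (lab w i) (lab w j) →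
    sL Lf (sw w i) j = sL Lf w j

variable {Ω : Finset (List Dir)} {Lf : List Dir → ℕ}

/-- everything about the flip of a free corner -/
theorem flip_all (H : Sys Ω Lf) {w : List Dir} (hw : w ∈ Ω) {i : ℕ} (hi : i ∈ fc w) :
    sw w i ∈ Ω ∧ i ∈ fc (sw w i) ∧ sw (sw w i) i = w ∧ lab (sw w i) i = lab w i ∧
    sL Lf (sw w i) i = - sL Lf w i ∧ (sL Lf w i = 1 ∨ sL Lf w i = -1) ∧
    (Lf (sw w i) : ℤ) = Lf w + sL Lf w i ∧
    (∀ j, j ≠ i + 1 → PP (sw w i) j = PP w j) ∧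
    ∀ j ∈ fc w, ¬ cfl (lab w i) (lab w j) →
      j ∈ fc (sw w i) ∧ lab (sw w i) j = lab w j ∧ sL Lf (sw w i) j = sL Lf w j := by
  have hs := H.saw w hw
  obtain ⟨h1, h2, h3, h4, h5, h6, h7, h8, h9, h10⟩ := flip w hs i hi
  have hlab : lab (sw w i) i = lab w i := by
    unfold lab
    rw [h6 i (by omega), h6 (i + 2) (by omega)]
  refine ⟨H.cl w hw i hi, h4, h5, hlab, ?_, H.st w hw i hi, ?_, h6, ?_⟩
  · unfold sL
    rw [h5]
    ring
  · unfold sL
    ring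
  · intro j hj hc
    have hnr := far_nr hi hj hc
    obtain ⟨h13, h14⟩ := h10 j hj hnr
    have hfar : ¬ (i ≤ j + 1 ∧ j ≤ i + 1) := by
      intro hcon
      exact hnr ((Pool.Agent.R715.ASFlip.mem_nr w i j).2 ⟨hj, Or.inl hcon⟩)
    refine ⟨h13, ?_, H.lo w hw i hi j hj hc⟩
    unfold lab
    rw [h6 j (by omega), h6 (j + 2) (by omega)]

/-- the occupied slots -/
noncomputable def Ocw (Lf : List Dir → ℕ) (L : Finset (P2 × P2)) (w : List Dir) :
    Finset (P2 × P2) :=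
  L.filter (fun q => ∃ i ∈ fc w, lab w i = q ∧ sL Lf w i = -1)

/-- the effect of a flip on the other labels -/
theorem other (H : Sys Ω Lf) {L : Finset (P2 × P2)} (hL : Cfr L) {w : List Dir}
    (hw : w ∈ Ω) {i : ℕ} (hi : i ∈ fc w) (hiL : lab w i ∈ L) {q : P2 × P2} (hq : q ∈ L)
    (hne : q ≠ lab w i) (c : ℤ → Prop) :
    (∃ j ∈ fc (sw w i), lab (sw w i) j = q ∧ c (sL Lf (sw w i) j)) ↔
      ∃ j ∈ fc w, lab w j = q ∧ c (sL Lf w j) := by
  obtain ⟨h1, h2, h3, h4, h5, h6, h7, h8, h9⟩ := flip_all H hw hi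
  constructor
  · rintro ⟨j, hj, hjq, hjc⟩
    obtain ⟨k1, k2, k3, k4, k5, k6, k7, k8, k9⟩ := flip_all H h1 h2
    rw [h3] at k9
    have hc : ¬ cfl (lab (sw w i) i) (lab (sw w i) j) := by
      rw [h4, hjq]
      exact hL _ hiL _ hq (Ne.symm hne)
    obtain ⟨m1, m2, m3⟩ := k9 j hj hc
    exact ⟨j, m1, m2.trans hjq, by rw [m3]; exact hjc⟩
  · rintro ⟨j, hj, hjq, hjc⟩
    have hc : ¬ cfl (lab w i) (lab w j) := by
      rw [hjq]
      exact hL _ hiL _ hq (Ne.symm hne)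
    obtain ⟨m1, m2, m3⟩ := h9 j hj hc
    exact ⟨j, m1, m2.trans hjq, by rw [m3]; exact hjc⟩

theorem mem_Ocw {L : Finset (P2 × P2)} {w : List Dir} {q : P2 × P2} :
    q ∈ Ocw Lf L w ↔ q ∈ L ∧ ∃ i ∈ fc w, lab w i = q ∧ sL Lf w i = -1 := by
  unfold Ocw
  rw [mem_filter]

theorem Sl_sw (H : Sys Ω Lf) {L : Finset (P2 × P2)} (hL : Cfr L) {w : List Dir}
    (hw : w ∈ Ω) {i : ℕ} (hi : i ∈ fc w) (hiL : lab w i ∈ L) :
    Slw L (sw w i) = Slw L w := by
  obtain ⟨h1, h2, h3, h4, h5, h6, h7, h8, h9⟩ := flip_all H hw hi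
  ext q
  rw [mem_Slw, mem_Slw]
  refine and_congr_right fun hq => ?_
  by_cases hne : q = lab w i
  · subst hne
    exact ⟨fun _ => ⟨i, hi, rfl⟩, fun _ => ⟨i, h2, h4⟩⟩
  · have := other H hL hw hi hiL hq hne (fun _ => True)
    simpa [Hs] using this

theorem Oc_sw (H : Sys Ω Lf) {L : Finset (P2 × P2)} (hL : Cfr L) {w : List Dir}
    (hw : w ∈ Ω) {i : ℕ} (hi : i ∈ fc w) (hiL : lab w i ∈ L) :
    (sL Lf w i = 1 → Ocw Lf L (sw w i) = insert (lab w i) (Ocw Lf L w)) ∧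
    (sL Lf w i = -1 → Ocw Lf L (sw w i) = (Ocw Lf L w).erase (lab w i)) := by
  obtain ⟨h1, h2, h3, h4, h5, h6, h7, h8, h9⟩ := flip_all H hw hi
  have hs' : Saw (sw w i) := (H.saw _ h1)
  constructor
  · intro hs
    ext q
    rw [mem_insert, mem_Ocw, mem_Ocw]
    by_cases hne : q = lab w i
    · subst hne
      exact ⟨fun _ => Or.inl rfl, fun _ => ⟨hiL, i, h2, h4, by rw [h5, hs]⟩⟩
    · constructor
      · rintro ⟨hq, h10⟩
        exact Or.inr ⟨hq, (other H hL hw hi hiL hq hne (fun s => s = -1)).1 h10⟩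
      · rintro (h10 | ⟨hq, h10⟩)
        · exact absurd h10 hne
        · exact ⟨hq, (other H hL hw hi hiL hq hne (fun s => s = -1)).2 h10⟩
  · intro hs
    ext q
    rw [mem_erase, mem_Ocw, mem_Ocw]
    by_cases hne : q = lab w i
    · subst hne
      constructor
      · rintro ⟨-, j, hj, hj1, hj2⟩
        rw [← h4] at hj1
        have := lab_inj hs' hj h2 hj1
        subst this
        rw [h5, hs] at hj2
        norm_num at hj2
      · rintro ⟨h10, -⟩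
        exact absurd rfl h10
    · constructor
      · rintro ⟨hq, h10⟩
        exact ⟨hne, hq, (other H hL hw hi hiL hq hne (fun s => s = -1)).1 h10⟩
      · rintro ⟨-, hq, h10⟩
        exact ⟨hq, (other H hL hw hi hiL hq hne (fun s => s = -1)).2 h10⟩

/-- the walks with the value `a` of the functional -/
noncomputable def KA (Ω : Finset (List Dir)) (Lf : List Dir → ℕ) (a : ℕ) : Finset (List Dir) :=
  Ω.filter (fun w => Lf w = a)

theorem mem_KA {a : ℕ} {w : List Dir} : w ∈ KA Ω Lf a ↔ w ∈ Ω ∧ Lf w = a := by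
  unfold KA
  rw [mem_filter]

/-- the free corners as switches of the functional -/
theorem tsp (H : Sys Ω Lf) {L : Finset (P2 × P2)} (hL : Cfr L) :
    TS (KA Ω Lf) 1 (Slw L) (Ocw Lf L) fl fl where
  sub := by
    intro a w hw q hq
    rw [mem_Ocw] at hq
    rw [mem_Slw]
    obtain ⟨h1, i, h2, h3, -⟩ := hq
    exact ⟨h1, i, h2, h3⟩
  on_K := by
    intro a w hw q hq hq'
    rw [mem_KA] at hw
    rw [mem_Slw] at hq
    obtain ⟨hqL, i, hi, rfl⟩ := hq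
    obtain ⟨h1, h2, h3, h4, h5, h6, h7, h8, h9⟩ := flip_all H hw.1 hi
    rw [fl_eq (H.saw _ hw.1) hi, mem_KA]
    refine ⟨h1, ?_⟩
    rcases h6 with h6 | h6
    · rw [h6] at h7
      omega
    · exact absurd (mem_Ocw.2 ⟨hqL, i, hi, rfl, h6⟩) hq'
  on_Sl := by
    intro a w hw q hq hq'
    rw [mem_KA] at hw
    rw [mem_Slw] at hq
    obtain ⟨hqL, i, hi, rfl⟩ := hq
    rw [fl_eq (H.saw _ hw.1) hi]
    exact Sl_sw H hL hw.1 hi hqL
  on_Oc := by
    intro a w hw q hq hq'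
    rw [mem_KA] at hw
    rw [mem_Slw] at hq
    obtain ⟨hqL, i, hi, rfl⟩ := hq
    obtain ⟨h1, h2, h3, h4, h5, h6, h7, h8, h9⟩ := flip_all H hw.1 hi
    rw [fl_eq (H.saw _ hw.1) hi]
    rcases h6 with h6 | h6
    · have h10 := (Oc_sw H hL hw.1 hi hqL).1 h6
      rw [h10]
      ext q
      simp
    · exact absurd (mem_Ocw.2 ⟨hqL, i, hi, rfl, h6⟩) hq'
  off_on := by
    intro a w hw q hq hq'
    rw [mem_KA] at hw
    rw [mem_Slw] at hq
    obtain ⟨hqL, i, hi, rfl⟩ := hq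
    obtain ⟨h1, h2, h3, h4, h5, h6, h7, h8, h9⟩ := flip_all H hw.1 hi
    rw [fl_eq (H.saw _ hw.1) hi, ← h4, fl_eq (H.saw _ h1) h2]
    exact h3
  off_K := by
    intro a w hw q hq
    rw [mem_KA] at hw
    rw [mem_Ocw] at hq
    obtain ⟨hqL, i, hi, rfl, hs⟩ := hq
    obtain ⟨h1, h2, h3, h4, h5, h6, h7, h8, h9⟩ := flip_all H hw.1 hi
    rw [fl_eq (H.saw _ hw.1) hi]
    rw [hs] at h7
    exact ⟨Lf (sw w i), by omega, mem_KA.2 ⟨h1, rfl⟩⟩
  off_Sl := by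
    intro a w hw q hq
    rw [mem_KA] at hw
    rw [mem_Ocw] at hq
    obtain ⟨hqL, i, hi, rfl, hs⟩ := hq
    rw [fl_eq (H.saw _ hw.1) hi]
    exact Sl_sw H hL hw.1 hi hqL
  off_Oc := by
    intro a w hw q hq
    rw [mem_KA] at hw
    rw [mem_Ocw] at hq
    obtain ⟨hqL, i, hi, rfl, hs⟩ := hq
    rw [fl_eq (H.saw _ hw.1) hi]
    have h10 := (Oc_sw H hL hw.1 hi hqL).2 hs
    rw [h10]
    ext q
    simp
  on_off := by
    intro a w hw q hq
    rw [mem_KA] at hw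
    rw [mem_Ocw] at hq
    obtain ⟨hqL, i, hi, rfl, hs⟩ := hq
    obtain ⟨h1, h2, h3, h4, h5, h6, h7, h8, h9⟩ := flip_all H hw.1 hi
    rw [fl_eq (H.saw _ hw.1) hi, ← h4, fl_eq (H.saw _ h1) h2]
    exact h3

end Pool.Agent.N949.CM
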